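import Pool.Agent.Helper65.KPZ.St

/-!
# Project KP (MP_26be5b_ag), chapter Z, module ZPR: product filtrations
-/

set_option autoImplicit false

namespace Pool.Agent.Helper11.KPZ

open Pool.Agent.Helper52.KP Pool.Agent.Helper67.NO Pool.Agent.Helper65.KPZ
open scoped LaurentPolynomial

universe u

section

variable {g : Type u} [LieRing g] [LieAlgebra ℂ g] [FiniteDimensional ℂ g] {x₀ : g} {C : Cone}
  (e : ∀ k, C.R k ≃ₗ[ℂ] Reg x₀ k)

/-- image -/
private noncomputable def img (a : ℕ) (S : Submodule ℂ (MvPolynomial (Fin C.m) ℂ)) :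
    Submodule ℂ (OO x₀ → ℂ) :=
  (S.comap (C.R a).subtype).map ((Reg x₀ a).subtype.comp (e a).toLinearMap)

/-- preimage -/
private noncomputable def pre (a : ℕ) (N : Submodule ℂ (OO x₀ → ℂ)) :
    Submodule ℂ (MvPolynomial (Fin C.m) ℂ) :=
  (N.comap ((Reg x₀ a).subtype.comp (e a).toLinearMap)).map (C.R a).subtype

private theorem mem_img (a : ℕ) (S : Submodule ℂ (MvPolynomial (Fin C.m) ℂ)) (f : OO x₀ → ℂ) :
    f ∈ img e a S ↔ ∃ p, ∃ hp : p ∈ C.R a, p ∈ S ∧ (e a ⟨p, hp⟩ : OO x₀ → ℂ) = f := by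
  unfold img
  constructor
  · rintro ⟨⟨q, hq⟩, h1, rfl⟩
    exact ⟨q, hq, h1, rfl⟩
  · rintro ⟨p, hp, h1, rfl⟩
    exact ⟨⟨p, hp⟩, h1, rfl⟩

private theorem mem_pre (a : ℕ) (N : Submodule ℂ (OO x₀ → ℂ)) (p : MvPolynomial (Fin C.m) ℂ) :
    p ∈ pre e a N ↔ ∃ hp : p ∈ C.R a, (e a ⟨p, hp⟩ : OO x₀ → ℂ) ∈ N := by
  unfold pre
  constructor
  · rintro ⟨⟨q, hq⟩, h1, rfl⟩
    exact ⟨hq, h1⟩
  · rintro ⟨h, h1⟩
    exact ⟨⟨p, h⟩, h1, rfl⟩

private theorem le_pre_of (a : ℕ) (S : Submodule ℂ (MvPolynomial (Fin C.m) ℂ))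
    (N : Submodule ℂ (OO x₀ → ℂ)) (h1 : S ≤ C.R a) (h2 : img e a S ≤ N) : S ≤ pre e a N := by
  intro p hp
  exact (mem_pre e a N p).2 ⟨h1 hp, h2 ((mem_img e a S _).2 ⟨p, h1 hp, hp, rfl⟩)⟩

private theorem e_inj (a : ℕ) (p q : MvPolynomial (Fin C.m) ℂ) (hp : p ∈ C.R a) (hq : q ∈ C.R a)
    (h : (e a ⟨p, hp⟩ : OO x₀ → ℂ) = e a ⟨q, hq⟩) : p = q := by
  have h1 := (e a).injective (Subtype.ext h)
  exact congrArg Subtype.val h1

private theorem e_mul (he : Cmp x₀ C e) (a b d : ℕ) (h : a + b = d)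
    (p q : MvPolynomial (Fin C.m) ℂ) (h1 : p ∈ C.R a) (h2 : q ∈ C.R b) (h3 : p * q ∈ C.R d) :
    (e d ⟨p * q, h3⟩ : OO x₀ → ℂ) = (e a ⟨p, h1⟩ : OO x₀ → ℂ) * (e b ⟨q, h2⟩ : OO x₀ → ℂ) := by
  subst h
  exact he a b ⟨p, h1⟩ ⟨q, h2⟩ ⟨p * q, h3⟩ rfl

private theorem e_surj (a b : ℕ) (h : a = b) (f : OO x₀ → ℂ) (hf : f ∈ Reg x₀ b) :
    ∃ p, ∃ hp : p ∈ C.R a, (e a ⟨p, hp⟩ : OO x₀ → ℂ) = f := by
  subst h
  refine ⟨((e a).symm ⟨f, hf⟩ : C.R a), ((e a).symm ⟨f, hf⟩).2, ?_⟩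
  simp

private theorem e_range (a b : ℕ) (h : a = b) (p : MvPolynomial (Fin C.m) ℂ) (hp : p ∈ C.R a) :
    (e a ⟨p, hp⟩ : OO x₀ → ℂ) ∈ Reg x₀ b := by
  subst h
  exact (e a ⟨p, hp⟩).2

private theorem e_zero (a : ℕ) (h : (0 : MvPolynomial (Fin C.m) ℂ) ∈ C.R a) :
    (e a ⟨0, h⟩ : OO x₀ → ℂ) = 0 := by
  have h1 : e a ⟨0, h⟩ = 0 := (e a).map_zero
  rw [h1]
  rfl

end

theorem hZPR : StZPR.{u} := by
  intro g _ _ _ x₀ C hC hn e he r F hr hT M c hM h0 hPF
  classical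
  obtain ⟨G, hGi, hGs, hGm, hGF⟩ := hPF
  -- degrees
  have hdeg : ∀ k, C.n * (r * M) * k = hdim x₀ * r * (M * k) := by
    intro k
    rw [hn]
    ring
  have hGle : ∀ k j, G k j ≤ C.R (C.n * (r * M) * k) := fun k j => by
    rw [← hGs k]
    exact le_iSup (G k) j
  -- membership in `tr`
  have htr : ∀ k l p, p ∈ tr e r M c F k l ↔
      ∃ h : p ∈ C.R (C.n * (r * M) * k), (e _ ⟨p, h⟩ : OO x₀ → ℂ) ∈ shf F M c (k, l) := by
    intro k l p
    unfold tr
    constructor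
    · rintro ⟨⟨q, hq⟩, h1, rfl⟩
      exact ⟨hq, h1⟩
    · rintro ⟨h, h1⟩
      exact ⟨⟨p, h⟩, h1, rfl⟩
  have hanti : ∀ k (l l' : ℤ), l ≤ l' → F k l' ≤ F k l := by
    intro k l l' h
    exact antitone_int_of_succ_le (f := F k) (hT.anti k) h
  -- `F (M k) l` is `shf` for all `l`
  have hshf : ∀ (k : ℕ) (l : ℤ), F (M * k) l = shf F M c (k, (l + c * k).toNat) := by
    intro k l
    by_cases h : 0 ≤ l + c * k
    · unfold shf
      dsimp only
      rw [Int.toNat_of_nonneg h]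
      congr 1
      ring
    · have h1 : (l + c * k).toNat = 0 := Int.toNat_of_nonpos (by omega)
      rw [h1, h0 k]
      apply le_antisymm (hT.le _ _)
      rw [← h0 k]
      unfold shf
      dsimp only
      apply hanti
      push_cast
      omega
  -- the grading
  let G₀ : ℕ → ℤ → Submodule ℂ (OO x₀ → ℂ) := fun k j =>
    if 0 ≤ j + c * k then img e (C.n * (r * M) * k) (G k (j + c * k).toNat) else ⊥
  have hG₀p : ∀ (k : ℕ) (j : ℤ), 0 ≤ j + (c : ℤ) * k → G₀ k j = img e (C.n * (r * M) * k)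
      (G k (j + c * k).toNat) := fun k j h => if_pos h
  have hG₀n : ∀ (k : ℕ) (j : ℤ), ¬ 0 ≤ j + (c : ℤ) * k → G₀ k j = ⊥ := fun k j h => if_neg h
  have hG₀s : ∀ (k i : ℕ), G₀ k ((i : ℤ) - c * k) = img e (C.n * (r * M) * k) (G k i) := by
    intro k i
    rw [hG₀p k _ (by omega)]
    congr 2
    omega
  -- pieces with `l ≤ j`
  have key : ∀ (k : ℕ) (l : ℤ), F (M * k) l = ⨆ (j : ℤ) (_ : l ≤ j), G₀ k j := by
    intro k l
    apply le_antisymm
    · intro f hf
      obtain ⟨p, hp, hpf⟩ := e_surj e _ _ (hdeg k) f (hT.le _ _ hf)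
      have h1 : p ∈ tr e r M c F k (l + c * k).toNat := by
        rw [htr]
        refine ⟨hp, ?_⟩
        rw [hpf, ← hshf]
        exact hf
      rw [hGF] at h1
      have h2 : (⨆ (j : ℕ) (_ : (l + c * k).toNat ≤ j), G k j) ≤
          pre e (C.n * (r * M) * k) (⨆ (j : ℤ) (_ : l ≤ j), G₀ k j) := by
        refine iSup₂_le fun i hi => ?_
        apply le_pre_of e _ _ _ (hGle k i)
        rw [← hG₀s k i]
        have h3 : l ≤ (i : ℤ) - c * k := by
          have := Int.toNat_le.1 hi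
          omega
        exact le_iSup₂ (f := fun (j : ℤ) (_ : l ≤ j) => G₀ k j) ((i : ℤ) - c * k) h3
      obtain ⟨hp', h4⟩ := (mem_pre e _ _ _).1 (h2 h1)
      rw [← hpf]
      exact h4
    · refine iSup₂_le fun j hj => ?_
      by_cases h : 0 ≤ j + (c : ℤ) * k
      · rw [hG₀p k j h]
        intro f hf
        obtain ⟨p, hp, hpS, rfl⟩ := (mem_img e _ _ _).1 hf
        have h1 : p ∈ tr e r M c F k (l + c * k).toNat := by
          rw [hGF]
          have h3 : (l + c * k).toNat ≤ (j + c * k).toNat := Int.toNat_le_toNat (by omega)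
          exact (le_iSup₂ (f := fun (j : ℕ) (_ : (l + c * k).toNat ≤ j) => G k j)
            (j + c * k).toNat h3) hpS
        obtain ⟨_, h4⟩ := (htr _ _ _).1 h1
        rw [hshf]
        exact h4
      · rw [hG₀n k j h]
        exact bot_le
  refine ⟨M, hM, G₀, fun k => ?_, fun k => ?_, ?_, key⟩
  · -- independence
    rw [iSupIndep_def]
    intro j
    by_cases h : 0 ≤ j + (c : ℤ) * k
    · rw [Submodule.disjoint_def]
      intro f hf hf'
      rw [hG₀p k j h] at hf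
      obtain ⟨p, hp, hpS, rfl⟩ := (mem_img e _ _ _).1 hf
      have h2 : (⨆ (j' : ℤ) (_ : j' ≠ j), G₀ k j') ≤ img e (C.n * (r * M) * k)
          (⨆ (i : ℕ) (_ : i ≠ (j + c * k).toNat), G k i) := by
        refine iSup₂_le fun j' hj' => ?_
        by_cases h' : 0 ≤ j' + (c : ℤ) * k
        · rw [hG₀p k j' h']
          intro f hf
          obtain ⟨q, hq, hqS, rfl⟩ := (mem_img e _ _ _).1 hf
          refine (mem_img e _ _ _).2 ⟨q, hq, ?_, rfl⟩
          have h3 : (j' + c * k).toNat ≠ (j + c * k).toNat := by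
            intro h4
            apply hj'
            have h5 := Int.toNat_of_nonneg h
            have h6 := Int.toNat_of_nonneg h'
            omega
          exact (le_iSup₂ (f := fun (i : ℕ) (_ : i ≠ (j + c * k).toNat) => G k i)
            (j' + c * k).toNat h3) hqS
        · rw [hG₀n k j' h']
          exact bot_le
      obtain ⟨q, hq, hqS, hqe⟩ := (mem_img e _ _ _).1 (h2 hf')
      have h3 := e_inj e _ _ _ hq hp hqe
      subst h3
      have h4 := (iSupIndep_def.1 (hGi k)) (j + c * k).toNat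
      rw [Submodule.disjoint_def] at h4
      have h5 := h4 _ hpS hqS
      subst h5
      exact e_zero e _ hp
    · rw [hG₀n k j h]
      exact disjoint_bot_left
  · -- sum
    obtain ⟨l, hl⟩ := hT.exh (M * k)
    apply le_antisymm
    · refine iSup_le fun j => ?_
      by_cases h : 0 ≤ j + (c : ℤ) * k
      · rw [hG₀p k j h]
        intro f hf
        obtain ⟨p, hp, hpS, rfl⟩ := (mem_img e _ _ _).1 hf
        exact e_range e _ _ (hdeg k) p hp
      · rw [hG₀n k j h]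
        exact bot_le
    · rw [← hl, key]
      exact iSup₂_le fun j _ => le_iSup (G₀ k) j
  · -- products
    intro k j k' j' f f' hf hf'
    by_cases h : 0 ≤ j + (c : ℤ) * k
    · by_cases h' : 0 ≤ j' + (c : ℤ) * k'
      · rw [hG₀p k j h] at hf
        rw [hG₀p k' j' h'] at hf'
        obtain ⟨p, hp, hpS, rfl⟩ := (mem_img e _ _ _).1 hf
        obtain ⟨q, hq, hqS, rfl⟩ := (mem_img e _ _ _).1 hf'
        have h1 : 0 ≤ (j + j') + (c : ℤ) * ((k + k' : ℕ) : ℤ) := by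
          push_cast
          linarith
        rw [hG₀p (k + k') (j + j') h1]
        have h2 := hGm _ _ _ _ p q hpS hqS
        have h3 : (j + c * k).toNat + (j' + c * k').toNat =
            ((j + j') + (c : ℤ) * ((k + k' : ℕ) : ℤ)).toNat := by
          rw [← Int.toNat_add h h']
          congr 1
          push_cast
          ring
        rw [h3] at h2
        have h4 : C.n * (r * M) * k + C.n * (r * M) * k' = C.n * (r * M) * (k + k') := by ring
        refine (mem_img e _ _ _).2 ⟨p * q, hGle _ _ h2, h2, ?_⟩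
        exact e_mul e he _ _ _ h4 p q hp hq _
      · rw [hG₀n k' j' h'] at hf'
        rw [(Submodule.mem_bot ℂ).1 hf', mul_zero]
        exact zero_mem _
    · rw [hG₀n k j h] at hf
      rw [(Submodule.mem_bot ℂ).1 hf, zero_mul]
      exact zero_mem _

end Pool.Agent.Helper11.KPZ
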